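import Pool.Agent.X270.NT.KR2

/-!
The Stolz map and the real exotic group `C*`-algebras `C*_{ℓ^q}(Γ; ℝ)`, `q > 2` (Brown and
Guentner), which lie between the maximal real group `C*`-algebra `C*_max(Γ; ℝ)` and the reduced one
`C*_r(Γ; ℝ) = C*_{ℓ²}(Γ; ℝ)`.

The map `θ : R^spin_n(BΓ)[B⁻¹] → KO_n(C*_r(Γ; ℝ))` is the composition of a homomorphism
`α : R^spin_n(BΓ)[B⁻¹] → KO_n(C*_max(Γ; ℝ))` and the canonical map
`KO_n(C*_max(Γ; ℝ)) → KO_n(C*_r(Γ; ℝ))`. By the theorem below, applied to this `α`, the kernel of `θ`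
is the union of the kernels of the maps `θ_q : R^spin_n(BΓ)[B⁻¹] → KO_n(C*_{ℓ^q}(Γ; ℝ))`, `q > 2`;
`θ` is injective if and only if all the `θ_q`, `q > 2`, are, and `θ` is surjective if and only if
every class in `KO_n(C*_{ℓ^q}(Γ; ℝ))`, `q > 2`, is in the image of `θ_r` after mapping it to
`KO_n(C*_{ℓ^r}(Γ; ℝ))` for some `r` with `2 < r ≤ q`. The theorem is about `KO_0`; `KO_{-k}` of the
algebras of `Γ` is a direct summand of `KO_0` of those of `Γ × ℤ^k`.

`KOMax G` is the group `KO_0` of the real maximal group `C*`-algebra of `G`, `KOLq G q` that of the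
completion `C*_{ℓ^q}(G; ℝ)` of `ℝ[G]` for the norm `rLqNorm q` (`Pool.Agent.X270.NT.StmtR`,
`Pool.Agent.X270.NT.StmtR2`). The first part of the theorem says that the norm for `q = 2` is the
operator norm on `ℓ²(G)`; so the algebra for `q = 2` is the reduced real group `C*`-algebra
`C*_r(G; ℝ)`.
-/

set_option autoImplicit false

namespace Pool.Agent.Results.MP_b169d2_gt.ExoticCompletions

open Filter Topology
open Pool.Agent.X270.NT.RG (cx rLqNorm KOMax KOLq InKernel LqInjective LqSurjective ReachedNear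
  ComesFrom)
open Pool.Agent.X270.NT.St (redNorm)

/-- Let `G` be a group and let `α : A → KO_0(C*_max(G; ℝ))` be a homomorphism of abelian groups.
The kernel of `A → KO_0(C*_r(G; ℝ))` is the union of the kernels of
`A → KO_0(C*_{ℓ^q}(G; ℝ))` over all `q > 2`, and `A → KO_0(C*_r(G; ℝ))` is injective if and only if
all the maps `A → KO_0(C*_{ℓ^q}(G; ℝ))`, `q > 2`, are injective. Every element of
`KO_0(C*_r(G; ℝ))` comes from `KO_0(C*_{ℓ^q}(G; ℝ))` for all `q > 2` near `2`, and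
`A → KO_0(C*_r(G; ℝ))` is surjective if and only if for all `q > 2` every element of
`KO_0(C*_{ℓ^q}(G; ℝ))` has an image in some `KO_0(C*_{ℓ^r}(G; ℝ))`, `2 < r ≤ q`, which comes from
`A`. Here `C*_r(G; ℝ)` is the completion of `ℝ[G]` for `rLqNorm 2`, which is the norm of the
operators on `ℓ²(G)`. -/
theorem result (G : Type) [Group G] (A : Type) [AddCommGroup A] (α : A →+ KOMax G) :
    (∀ x : MonoidAlgebra ℝ G, rLqNorm 2 x = redNorm (cx G x)) ∧
    (∀ a : A, InKernel 2 (α a) ↔ ∃ q : ℝ, 2 < q ∧ InKernel q (α a)) ∧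
    (LqInjective α 2 ↔ ∀ q : ℝ, 2 < q → LqInjective α q) ∧
    (∀ x : KOLq G 2, ∀ᶠ q in 𝓝[>] (2 : ℝ), ComesFrom x q) ∧
    (LqSurjective α 2 ↔ ∀ q : ℝ, 2 < q → ∀ y : KOLq G q, ReachedNear α q y) :=
  ⟨fun x => Pool.Agent.X270.NT.K2.lqNorm_two (cx G x),
    fun a => Pool.Agent.X270.NT.RG.kernel_iff (α a), Pool.Agent.X270.NT.RG.injective_iff α,
    Pool.Agent.X270.NT.RG.comesFrom, Pool.Agent.X270.NT.RG.surjective_iff α⟩

end Pool.Agent.Results.MP_b169d2_gt.ExoticCompletions
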